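import Pool.Agent.TH402.FB.Col

/-!
# Difference sets of the classes of a finite partition of the primes: syndetic or piecewise Bohr
-/

set_option autoImplicit false

namespace Pool.Agent.Results.MP_89da58_nt.PiecewiseBohr

open Filter

/-- `d` is in the Bohr neighbourhood of zero with frequencies `Θ` and radius `ρ`: for every `θ` in `Θ` the
distance of `d * θ` to the nearest integer is less than `ρ` -/
def InBohr (Θ : Finset ℝ) (ρ : ℝ) (d : ℕ) : Prop :=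
  ∀ θ ∈ Θ, |(d : ℝ) * θ - round ((d : ℝ) * θ)| < ρ

/-- the union of the sets `E_i - E_i` over the colours `i` in `I` is syndetic, where `E_i` is the set of the
primes of colour `i` -/
def Syndetic {k : ℕ} (col : ℕ → Fin k) (I : Set (Fin k)) : Prop := ∃ L : ℕ, ∀ n : ℤ, ∃ i ∈ I,
  ∃ p q : ℕ, p.Prime ∧ q.Prime ∧ col p = i ∧ col q = i ∧
    n ≤ (p : ℤ) - (q : ℤ) ∧ (p : ℤ) - (q : ℤ) ≤ n + (L : ℤ)

/-- `d` is in the union of the sets `E_i - E_i` over the colours `i` in `I` -/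
def Hits {k : ℕ} (col : ℕ → Fin k) (I : Set (Fin k)) (d : ℕ) : Prop := ∃ i ∈ I, ∃ p : ℕ,
  p.Prime ∧ (p + d).Prime ∧ col p = i ∧ col (p + d) = i

/-- `d` is the difference of many pairs of primes of colour `j`: for every `η > 0` there are arbitrarily
large `x` with at least `x ^ (1 - η)` primes `p ≤ x`, `p ≡ a (mod q)`, of colour `j` such that `p + d` is a
prime of colour `j` and there are at most `k` primes in `(p, p + d]` -/
def Many (q a k : ℕ) (col : ℕ → Fin k) (j : Fin k) (d : ℕ) : Prop := ∀ η : ℝ, 0 < η →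
  ∃ᶠ x : ℝ in atTop, x ^ (1 - η) ≤ ({p : ℕ | p.Prime ∧ (p + d).Prime ∧ (p : ℝ) ≤ x ∧ p ≡ a [MOD q] ∧
    col p = j ∧ col (p + d) = j ∧ Nat.primeCounting (p + d) ≤ Nat.primeCounting p + k}.ncard : ℝ)

theorem avoid {k : ℕ} {col : ℕ → Fin k} {I : Set (Fin k)} (h : ¬ Syndetic col I) (M : ℕ) :
    ∃ u : ℕ, ∀ d : ℕ, u < d → d ≤ u + M → ¬ Hits col I d := by
  unfold Syndetic at h
  push Not at h
  obtain ⟨n, hn⟩ := h (2 * M + 2)
  rcases le_or_gt 0 (n + M + 1) with h0 | h0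
  · refine ⟨(n + M + 1).toNat, fun d h1 h2 ⟨i, hi, p, hp, hpd, hc, hc'⟩ => ?_⟩
    have h3 := hn i hi (p + d) p hpd hp hc' hc
    have e : ((n + M + 1).toNat : ℤ) = n + M + 1 := Int.toNat_of_nonneg h0
    have h4 : ((n + M + 1).toNat : ℤ) < d := by exact_mod_cast h1
    have h5 : (d : ℤ) ≤ ((n + M + 1).toNat : ℤ) + M := by exact_mod_cast h2
    push_cast at h3
    have h6 := h3 (by linarith)
    linarith
  · refine ⟨(-n - M - 1).toNat, fun d h1 h2 ⟨i, hi, p, hp, hpd, hc, hc'⟩ => ?_⟩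
    have h3 := hn i hi p (p + d) hp hpd hc hc'
    have e : ((-n - M - 1).toNat : ℤ) = -n - M - 1 := Int.toNat_of_nonneg (by linarith)
    have h4 : ((-n - M - 1).toNat : ℤ) < d := by exact_mod_cast h1
    have h5 : (d : ℤ) ≤ ((-n - M - 1).toNat : ℤ) + M := by exact_mod_cast h2
    push_cast at h3
    have h6 := h3 (by linarith)
    linarith

/-- Let the primes be coloured with `k` colours, `E_i` the primes of colour `i`. There is a Bohr neighbourhood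
`B` of zero, which has bounded gaps, such that for every set `I` of colours:
(1) in every long interval `J` without elements of the sets `E_i - E_i`, `i ∈ I`, almost all elements of
`B ∩ J` are differences of many pairs of primes of one colour `j ∉ I`;
(2) either the union of the sets `E_i - E_i`, `i ∈ I`, is syndetic, or there are arbitrarily long intervals
`J` as in (1) for which all elements of `B ∩ J` are such differences. -/
theorem result (q a k : ℕ) (hq : 1 ≤ q) (ha : a.Coprime q) (col : ℕ → Fin k) :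
    ∃ (Θ : Finset ℝ) (ρ : ℝ), 0 < ρ ∧
    (∃ L : ℕ, ∀ u : ℕ, ∃ d : ℕ, u < d ∧ d ≤ u + L ∧ InBohr Θ ρ d) ∧
    ∀ I : Set (Fin k),
      (∀ ε : ℝ, 0 < ε → ∃ L₀ : ℕ, ∀ L : ℕ, L₀ ≤ L → ∀ u : ℕ,
        (∀ d : ℕ, u < d → d ≤ u + L → ¬ Hits col I d) →
        ({d : ℕ | u < d ∧ d ≤ u + L ∧ InBohr Θ ρ d ∧
          ¬ ∃ j, j ∉ I ∧ Many q a k col j d}.ncard : ℝ) ≤ ε * L) ∧
      (Syndetic col I ∨ ∀ L : ℕ, ∃ u : ℕ, ∀ d : ℕ, u < d → d ≤ u + L →
        ¬ Hits col I d ∧ (InBohr Θ ρ d → ∃ j, j ∉ I ∧ Many q a k col j d)) := by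
  classical
  obtain ⟨Θ, ρ, hρ, H⟩ := Pool.Agent.TH402.FB.colour q a k hq ha col
  refine ⟨Θ, ρ, hρ, Pool.Agent.TH402.FB.syn Θ ρ hρ, fun I => ?_⟩
  -- good differences
  have key : ∀ d : ℕ, ¬ Hits col I d → (∀ η : ℝ, 0 < η → ∃ᶠ x : ℝ in atTop, x ^ (1 - η) ≤
          ({p : ℕ | p.Prime ∧ (p + d).Prime ∧ (p : ℝ) ≤ x ∧ p ≡ a [MOD q] ∧ col p = col (p + d) ∧
            Nat.primeCounting (p + d) ≤ Nat.primeCounting p + k}.ncard : ℝ)) →
      ∃ j, j ∉ I ∧ Many q a k col j d := by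
    intro d g1 g5
    obtain ⟨j, hj⟩ := Pool.Agent.W59.GB.big_cover
      (fun j : Fin k => {p : ℕ | p.Prime ∧ (p + d).Prime ∧ p ≡ a [MOD q] ∧ col p = j ∧ col (p + d) = j ∧
        Nat.primeCounting (p + d) ≤ Nat.primeCounting p + k})
      {p : ℕ | p.Prime ∧ (p + d).Prime ∧ p ≡ a [MOD q] ∧ col p = col (p + d) ∧
        Nat.primeCounting (p + d) ≤ Nat.primeCounting p + k} (by
        intro η hη
        refine (g5 η hη).mono fun x hx => hx.trans ?_
        rw [Nat.cast_le]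
        refine Set.ncard_le_ncard ?_ ((Set.finite_Iic ⌊x⌋₊).subset ?_)
        · rintro p ⟨e1, e2, e3, e4, e5, e6⟩
          exact ⟨⟨e1, e2, e4, e5, e6⟩, e3⟩
        · rintro p ⟨_, hp⟩
          exact Nat.le_floor hp)
      (by
        rintro p ⟨e1, e2, e4, e5, e6⟩
        rw [Set.mem_iUnion]
        exact ⟨col p, e1, e2, e4, rfl, e5.symm, e6⟩)
    refine ⟨j, fun hjI => ?_, ?_⟩
    · obtain ⟨p, e1, e2, e3, e4, e5, e6⟩ := hj.infinite.nonempty
      exact g1 ⟨j, hjI, p, e1, e2, e4, e5⟩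
    · intro η hη
      refine (hj η hη).mono fun x hx => hx.trans ?_
      rw [Nat.cast_le]
      refine Set.ncard_le_ncard ?_ ((Set.finite_Iic ⌊x⌋₊).subset ?_)
      · rintro p ⟨⟨e1, e2, e3, e4, e5, e6⟩, e7⟩
        exact ⟨e1, e2, e7, e3, e4, e5, e6⟩
      · rintro p ⟨_, _, hp, _⟩
        exact Nat.le_floor hp
  have part1 : ∀ ε : ℝ, 0 < ε → ∃ L₀ : ℕ, ∀ L : ℕ, L₀ ≤ L → ∀ u : ℕ,
        (∀ d : ℕ, u < d → d ≤ u + L → ¬ Hits col I d) →
        ({d : ℕ | u < d ∧ d ≤ u + L ∧ InBohr Θ ρ d ∧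
          ¬ ∃ j, j ∉ I ∧ Many q a k col j d}.ncard : ℝ) ≤ ε * L := by
    intro ε hε
    obtain ⟨L₀, h⟩ := H ε hε
    refine ⟨L₀, fun L hL u hu => le_trans ?_ (h L hL u)⟩
    rw [Nat.cast_le]
    refine Set.ncard_le_ncard ?_ ((Set.finite_le_nat (u + L)).subset fun d hd => hd.2.1)
    rintro d ⟨g1, g2, g3, g4⟩
    exact ⟨g1, g2, g3, fun g5 => g4 (key d (hu d g1 g2) g5)⟩
  refine ⟨part1, ?_⟩
  by_cases hI : Syndetic col I
  · exact Or.inl hI
  right
  intro L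
  obtain ⟨L₀, h⟩ := part1 (1 / (2 * (L + 1))) (by positivity)
  obtain ⟨u, hu⟩ := avoid hI ((L + 1) * (L₀ + 1))
  have h1 := h ((L + 1) * (L₀ + 1)) (by nlinarith) u hu
  obtain ⟨E, hE⟩ : ∃ E : Set ℕ, E = {d : ℕ | u < d ∧ d ≤ u + (L + 1) * (L₀ + 1) ∧ InBohr Θ ρ d ∧
          ¬ ∃ j, j ∉ I ∧ Many q a k col j d} := ⟨_, rfl⟩
  rw [← hE] at h1
  have hEf : E.Finite := by
    rw [hE]
    exact (Set.finite_le_nat (u + (L + 1) * (L₀ + 1))).subset fun d hd => hd.2.1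
  have hblk : ∀ t : Fin (L₀ + 1), ∀ d : ℕ, u + t * (L + 1) < d → d ≤ u + t * (L + 1) + L →
      u < d ∧ d ≤ u + (L + 1) * (L₀ + 1) := by
    intro t d g1 g2
    have ht : (t : ℕ) + 1 ≤ L₀ + 1 := t.2
    have g5 : ((t : ℕ) + 1) * (L + 1) ≤ (L₀ + 1) * (L + 1) := Nat.mul_le_mul_right _ ht
    have g6 : (L₀ + 1) * (L + 1) = (L + 1) * (L₀ + 1) := Nat.mul_comm _ _
    have g7 : ((t : ℕ) + 1) * (L + 1) = t * (L + 1) + (L + 1) := by ring
    exact ⟨lt_of_le_of_lt (Nat.le_add_right _ _) g1, by omega⟩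
  by_contra hcon
  push Not at hcon
  have hex : ∀ t : Fin (L₀ + 1), ∃ d ∈ E, u + t * (L + 1) < d ∧ d ≤ u + t * (L + 1) + L := by
    intro t
    obtain ⟨d, g1, g2, g3⟩ := hcon (u + t * (L + 1))
    obtain ⟨g4, g5⟩ := hblk t d g1 g2
    obtain ⟨g6, g7⟩ := g3 (hu d g4 g5)
    refine ⟨d, ?_, g1, g2⟩
    rw [hE]
    exact ⟨g4, g5, g6, fun ⟨j, hj, hm⟩ => g7 j hj hm⟩
  choose f hf1 hf2 hf3 using hex
  have hinj : Function.Injective f := by
    intro s t hst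
    have h2 := hf2 s
    have h3 := hf3 s
    have h4 := hf2 t
    have h5 := hf3 t
    rw [hst] at h2 h3
    by_contra hne
    rcases lt_or_gt_of_ne (fun h => hne (Fin.ext h) : (s : ℕ) ≠ t) with h6 | h6
    · have h7 : ((s : ℕ) + 1) * (L + 1) ≤ t * (L + 1) := Nat.mul_le_mul_right _ h6
      have h8 : ((s : ℕ) + 1) * (L + 1) = s * (L + 1) + (L + 1) := by ring
      omega
    · have h7 : ((t : ℕ) + 1) * (L + 1) ≤ s * (L + 1) := Nat.mul_le_mul_right _ h6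
      have h8 : ((t : ℕ) + 1) * (L + 1) = t * (L + 1) + (L + 1) := by ring
      omega
  have h2 : L₀ + 1 ≤ E.ncard := by
    have h3 : (Set.range f).ncard = L₀ + 1 := by
      rw [← Set.image_univ, Set.ncard_image_of_injective _ hinj, Set.ncard_univ]
      simp
    rw [← h3]
    exact Set.ncard_le_ncard (by rintro _ ⟨t, rfl⟩; exact hf1 t) hEf
  have h3 : 1 / (2 * ((L : ℝ) + 1)) * (((L + 1) * (L₀ + 1) : ℕ) : ℝ) = ((L₀ : ℝ) + 1) / 2 := by
    push_cast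
    field_simp
  rw [h3] at h1
  have h4 : ((L₀ : ℝ) + 1) ≤ E.ncard := by exact_mod_cast h2
  linarith [(Nat.cast_nonneg L₀ : (0 : ℝ) ≤ L₀)]

end Pool.Agent.Results.MP_89da58_nt.PiecewiseBohr
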